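import Mathlib
import Pool.Agent.Run7.h407.DU.MainU
import Pool.Agent.Run7.h980.BD.Fin

/-!
The blow-up theorems with universal constraint fields and with supports in the union of the
support of the datum and of a cone with vertex at the blow-up point (helper980's `C980.Sup`).
-/

namespace Pool.Agent.Run7.h407.G.X.DDu

open Set Filter Topology MeasureTheory
open scoped ContDiff
open L980 (exists_src1)
open C980 (Sup CC CC_closed Q_zero G3_zero exists_srcC)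

variable {U T : V → V} {l R1 : ℝ}

/-- The supports of the modes and of the constraint fields. -/
theorem sup_of {q s0 R L0 DT : ℝ} {h : Pre 4 q s0 R} (k0 : Lnk U T l R1 h L0 DT 0 1)
    {r : ℝ} (hs2 : 17 / 4 / s0 ^ 2 ≤ r)
    (hTs : ∀ x, T x ≠ 0 → x ∈ tsupport U ∨ x ∈ CC r) :
    Sup (fun x => x ∈ tsupport U ∨ x ∈ CC r) 0 (fun n => h.sc.Q U T (n + 1))
      (G3 (h.sc.Q U T)) := by
  have hch := Sc.chnQ k0.hd k0.hl
  refine ⟨fun n x hx => ?_, fun n i x hx => ?_, fun n => ?_,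
      ⟨_, hch.lim.comp (tendsto_add_atTop_nat 1), fun n x hx => ?_⟩⟩
  · rw [not_or] at hx
    exact (Q_zero k0.hl hTs hs2 hx.1 hx.2).self_of_nhds (n + 1)
  · rw [not_or] at hx
    exact G3_zero (Q_zero k0.hl hTs hs2 hx.1 hx.2) n i
  · have h1 : ∀ᶠ x : V in 𝓝 0, ‖x‖ < _ := nhds_ltn (by
      rw [norm_zero]
      exact hch.lo0 (n + 1))
    filter_upwards [h1] with x hx
    by_contra hcon
    exact absurd (hch.supp (n + 1) x hcon).1 (not_le.2 hx)
  · rw [sub_zero]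
    exact (hch.supp (n + 1) x hx).2

section

variable {V0 T0 φ : V → V}

theorem blowU1 (S : Src V0 T0 φ l R1) {q X : ℝ} (M : Mst q X) {k : ℕ} {w δ : ℝ}
    (hR : ROu V0 T0 φ l (rh X q (k + 1)) w) (hδ : 0 ≤ 1 + δ)
    (h16 : 16 ≤ rh X q (k + 1) ^ (2 * (1 + δ) - q * (4 * q - 2)))
    {U : V → V} {lU s b : ℝ} (P : Prt U V0 T0 φ l R1 lU s b)
    (hws : rh X q (k + 1) ^ kq q = w * s)
    {r : ℝ} (hr2 : 17 / 4 / (rh X q (k + 1) ^ kq q) ^ 2 ≤ r)
    (hTs : ∀ x, T0 (s ^ 2 • x) ≠ 0 ∨ φ (s ^ 2 • x) ≠ 0 →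
      x ∈ tsupport (P0 U V0 b s) ∨ x ∈ CC r) :
    ∃ (p : ℕ → V → V) (g : ℕ → Fin 3 → V → V) (ρ : ℝ), Fam q 0 (P0 U V0 b s) p g ∧
      Sup (fun x => x ∈ tsupport (P0 U V0 b s) ∨ x ∈ CC r) 0 p g ∧
      Tail (fun m => M.pre.sc.P (m + 1)) (G3 M.pre.sc.P) k 0 p g ∧
      ∀ ν ≥ 0, ∀ a > 0, cD V0 T0 (rh X q (k + 1)) w * ν ≤ a * b * s →
        Blo δ 0 ρ p g ν (fun x => a • P0 U V0 b s x)
          (9 * rh X q (k + 1) * cK V0 T0 / (a * b * s ^ 5)) := by
  set R := rh X q (k + 1) with hRd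
  have hβ := β0_pos
  have hb0 := S.b0
  have hN := S.n0
  have hDV := Dir_nonneg' V0
  have hRb := hR.big
  have hw := hR.w1
  set hp := preU M.pre (k + 1) with hpd
  have hDup := Dup_nonneg hp.sc
  have hKp : 0 < cK V0 T0 := S.cK_pos hp.sc
  have hM2 : 0 < Dir T0 T0 + 1 + Dup := by
    have := Dir_nonneg' T0
    linarith
  set K := cK V0 T0 with hK
  obtain ⟨RU, hRU⟩ : ∃ R, ∀ x, U x ≠ 0 → ‖x‖ ≤ R := by
    obtain ⟨R, hR⟩ := P.cu.cs.isCompact.isBounded.exists_norm_le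
    exact ⟨R, fun x hx => hR x (subset_tsupport U hx)⟩
  obtain ⟨hL, hκ, hquo⟩ := P.lnkU hR hp hws hRU
  have hs := P.s0
  have hb := P.b0
  have hs1 := P.s1
  have hs2 : 1 ≤ s ^ 2 := one_le_pow₀ hs1
  have hlR : l / s ^ 2 ≤ max R1 RU := by
    refine le_trans ?_ (le_max_left _ _)
    exact (div_le_self S.l0.le hs2).trans S.lR
  obtain ⟨hF, H⟩ := mainQe hL hlR δ hδ h16 (M.s1k (k + 1)) (M.R2k (k + 1))
  have hTs' : ∀ x, dil s (Tc T0 φ (Real.exp (-(3 * R)))) x ≠ 0 →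
      x ∈ tsupport (P0 U V0 b s) ∨ x ∈ CC r := by
    intro x hx
    apply hTs
    by_contra hcon
    rw [not_or, not_not, not_not] at hcon
    apply hx
    show s ^ 3 • (T0 (s ^ 2 • x) + Real.exp (-(3 * R)) • φ (s ^ 2 • x)) = 0
    rw [hcon.1, hcon.2, smul_zero, add_zero, smul_zero]
  refine ⟨_, _, max R1 RU, hF, sup_of hL hr2 hTs', fun n => ⟨?_, fun i => ?_⟩,
    fun ν hν a ha haν => ?_⟩
  · rw [Tl_zero']
    have := QU M.pre (k + 1) (P0 U V0 b s) (dil s (Tc T0 φ (Real.exp (-(3 * R))))) (n + 1)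
    rw [show n + 1 + 3 = n + 3 + 1 by omega, show n + 1 + 2 + (k + 1) = n + 3 + k + 1 by omega]
      at this
    exact this
  · rw [Tl_zero']
    have := G3U M.pre (k + 1) (P0 U V0 b s) (dil s (Tc T0 φ (Real.exp (-(3 * R))))) n
    rw [show n + 2 + (k + 1) = n + 3 + k by omega] at this
    exact congrFun this i
  have hκ0 := hL.kap1_pos
  set κ := kapG (hp.sc.Q (P0 U V0 b s) (dil s (Tc T0 φ (Real.exp (-(3 * R)))))) 1 with hκd
  have hκ' : κ ≤ K / (b * s ^ 5) := hκ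
  have hκs : κ * (b * s ^ 5) ≤ K := by
    rw [le_div_iff₀ (by positivity)] at hκ'
    exact hκ'
  have hw0 : 0 < w := by linarith
  have hR0 : 0 < R := by linarith
  have q1 : 0 ≤ 200 * K * (Dir V0 V0 / ip V0 V0) * R * ν := by positivity
  have q2 : 0 ≤ 200 * K * ((Dir T0 T0 + 1 + Dup) / β0) * w ^ 4 * ν := by positivity
  have hsum : 200 * K * (Dir V0 V0 / ip V0 V0) * R * ν
      + 200 * K * ((Dir T0 T0 + 1 + Dup) / β0) * w ^ 4 * ν ≤ a * b * s := by
    refine le_trans (le_of_eq ?_) haν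
    unfold cD
    ring
  have hbs : 0 < b * s := by positivity
  refine (H ν hν a ha ?_ ?_).mono ?_
  · have h1 : 200 * κ * (Dir (P0 U V0 b s) (P0 U V0 b s) / ip (P0 U V0 b s) (P0 U V0 b s) * R) * ν
        ≤ 200 * (K / (b * s ^ 5)) * (s ^ 4 * (Dir V0 V0 / ip V0 V0) * R) * ν := by
      apply mul_le_mul_of_nonneg_right _ hν
      apply mul_le_mul
      · exact mul_le_mul_of_nonneg_left hκ' (by norm_num)
      · exact mul_le_mul_of_nonneg_right hquo (by linarith)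
      · have h2 : 0 ≤ Dir (P0 U V0 b s) (P0 U V0 b s) := Dir_nonneg' _
        have h3 : 0 ≤ ip (P0 U V0 b s) (P0 U V0 b s) := ip_nonneg _
        positivity
      · positivity
    refine h1.trans ?_
    have h4 : 200 * (K / (b * s ^ 5)) * (s ^ 4 * (Dir V0 V0 / ip V0 V0) * R) * ν
        = 200 * K * (Dir V0 V0 / ip V0 V0) * R * ν / (b * s) := by
      field_simp
    rw [h4, div_le_iff₀ hbs]
    linarith
  · have h1 : 200 * κ * ((R ^ kq q) ^ 4 * (Dir (Tc T0 φ (Real.exp (-(3 * R))))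
        (Tc T0 φ (Real.exp (-(3 * R)))) + Dup) / β0) * ν
        ≤ 200 * (K / (b * s ^ 5)) * ((w * s) ^ 4 * (Dir T0 T0 + 1 + Dup) / β0) * ν := by
      rw [hws]
      apply mul_le_mul_of_nonneg_right _ hν
      have h2 := Dir_nonneg' (Tc T0 φ (Real.exp (-(3 * R))))
      apply mul_le_mul
      · exact mul_le_mul_of_nonneg_left hκ' (by norm_num)
      · apply div_le_div_of_nonneg_right _ hβ.le
        apply mul_le_mul_of_nonneg_left _ (by positivity)
        linarith [hR.d1]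
      · positivity
      · positivity
    refine h1.trans ?_
    have h4 : 200 * (K / (b * s ^ 5)) * ((w * s) ^ 4 * (Dir T0 T0 + 1 + Dup) / β0) * ν
        = 200 * K * ((Dir T0 T0 + 1 + Dup) / β0) * w ^ 4 * ν / (b * s) := by
      field_simp
    rw [h4, div_le_iff₀ hbs]
    linarith
  · rw [div_le_div_iff₀ ha (by positivity)]
    have := mul_le_mul_of_nonneg_left hκs (by positivity : 0 ≤ 9 * R * a)
    calc 9 * R * κ * (a * b * s ^ 5) = 9 * R * a * (κ * (b * s ^ 5)) := by ring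
      _ ≤ 9 * R * a * K := this
      _ = _ := by ring

end

section

variable {U : V → V} {q X δ : ℝ}

/-- Every datum which is not a steady Euler flow. -/
theorem mainAU1 (M : Mst q X) (hq1 : q < 5 / 4) (hδ : 0 ≤ 1 + δ)
    (hη : 0 < 2 * (1 + δ) - q * (4 * q - 2))
    (hU : CF U) (hd : ∀ x, dvg U x = 0) (hns : ∃ i x, om i (adv U U) x ≠ 0) {z : V}
    (hz : ∀ᶠ x in 𝓝 z, U x = 0) {r : ℝ} (hr : 0 < r) :
    ∃ k₀ : ℕ, ∀ k ≥ k₀, ∃ (p : ℕ → V → V) (g : ℕ → Fin 3 → V → V) (ρ : ℝ), Fam q z U p g ∧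
      Sup (fun x => x ∈ tsupport U ∨ x - z ∈ CC r) z p g ∧
      Tail (fun m => M.pre.sc.P (m + 1)) (G3 M.pre.sc.P) k z p g ∧ ∃ A₀ > 0, ∀ ν ≥ 0,
        ∀ a > 0, A₀ * ν ≤ a → Blo δ z ρ p g ν (fun x => a • U x) (A₀ / a) := by
  have hq := M.pre.hγ
  have hκ : 4 / 5 < kq q := by
    unfold kq
    rw [lt_div_iff₀ (by linarith)]
    linarith
  have hU' : CF (Tl (-z) U) := ⟨sm_Tl _ hU.sm, cs_Tl _ hU.cs⟩
  have hd' : ∀ x, dvg (Tl (-z) U) x = 0 := fun x => by rw [dvg_Tl, hd]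
  have ha' := Aw0_Tl hz
  have hns' : ∃ i x, om i (adv (Tl (-z) U) (Tl (-z) U)) x ≠ 0 := by
    obtain ⟨i, x, hx⟩ := hns
    refine ⟨i, x - z, ?_⟩
    rw [adv_Tl, om_Tl]
    have : x - z - -z = x := by abel
    rw [this]
    exact hx
  obtain ⟨T0, φ, l, R1, S, sT, sφ⟩ := exists_src1 hU' hd' ha' hns'
  have E1 : ∀ᶠ R : ℝ in atTop, 16 ≤ R ^ (2 * (1 + δ) - q * (4 * q - 2)) :=
    (tendsto_rpow_atTop hη).eventually_ge_atTop _
  have E2 : ∀ᶠ x : ℝ in atTop, 17 / 4 / r ≤ (x ^ kq q) ^ 2 :=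
    ((tendsto_pow_atTop two_ne_zero).comp
      (tendsto_rpow_atTop (kq_pos hq))).eventually_ge_atTop _
  obtain ⟨k₀, hk₀⟩ := (M.tend.eventually (((S.evU hκ).and E1).and
    E2)).exists_forall_of_atTop
  refine ⟨k₀, fun k hk => ?_⟩
  obtain ⟨⟨hR, h16⟩, h17⟩ := hk₀ k hk
  have hR1 : 0 < R1 := S.l0.trans_le S.lR
  have e0 : P0 (fun _ => 0) (Tl (-z) U) 1 1 = Tl (-z) U := by
    funext x
    show (0 : V) + (1 : ℝ) • dil 1 (Tl (-z) U) x = _
    rw [dil_one, one_smul, zero_add]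
  have hP : Prt (fun _ => 0) (Tl (-z) U) T0 φ l R1 (R1 + 1) 1 1 :=
    { S := S
      cu := ⟨contDiff_const, HasCompactSupport.zero⟩
      du := fun x => Finset.sum_eq_zero fun i _ => pd_const _ _ _
      zu := fun x _ => rfl
      s1 := le_rfl
      sR := by linarith
      b0 := one_pos
      hD := by
        have h1 : Dir (fun _ : V => (0 : V)) (fun _ => 0) = 0 := by
          apply Dir_zero_of
          intro x
          exact Or.inl (Eventually.of_forall fun _ => rfl)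
        have h2 : ip (fun _ : V => (0 : V)) (fun _ => 0) = 0 := by
          apply ip_zero_of'
          intro x
          exact Or.inl rfl
        rw [h1, h2]
        simp }
  have hR00 : 0 < rh X q (k + 1) := by linarith [hR.big]
  have hw00 : 0 < rh X q (k + 1) ^ kq q := Real.rpow_pos_of_pos hR00 _
  obtain ⟨p, g, ρ, hF, hSup, hT, hB⟩ := blowU1 S M hR hδ h16 hP (mul_one _).symm (r := r) (by
      rw [div_le_iff₀ hr] at h17
      rw [div_le_iff₀ (by positivity)]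
      linarith) (by
    intro x hx
    left
    rw [e0]
    rw [one_pow, one_smul] at hx
    rcases hx with hx | hx
    · exact sT x hx
    · exact sφ x hx)
  rw [e0] at hF hB hSup
  have e1 := Tl_inv z U
  have hF' := hF.tl (z := z)
  rw [e1] at hF'
  have hβ := β0_pos
  have hK : 0 < cK (Tl (-z) U) T0 := S.cK_pos M.pre.sc
  have hDup := Dup_nonneg M.pre.sc
  have hD1 : 0 ≤ Dir (Tl (-z) U) (Tl (-z) U) := Dir_nonneg' _
  have hD2 : 0 ≤ Dir T0 T0 := Dir_nonneg' _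
  have hN : 0 < ip (Tl (-z) U) (Tl (-z) U) := S.n0
  have hRb := hR.big
  have hwb := hR.w1
  set R := rh X q (k + 1) with hRd
  set w := R ^ kq q with hwd
  have hR0 : 0 < R := by linarith
  have hD0 : 0 ≤ cD (Tl (-z) U) T0 R w := by
    unfold cD
    positivity
  have hA : 0 < cD (Tl (-z) U) T0 R w + 9 * R * cK (Tl (-z) U) T0 := by positivity
  refine ⟨_, _, ρ, hF', hSup.tl, hT.tl z, _, hA, fun ν hν a ha haν => ?_⟩
  have h1 := (hB ν hν a ha (by
    have : 0 ≤ 9 * R * cK (Tl (-z) U) T0 * ν := by positivity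
    linarith)).tl (z := z)
  have e2 : Tl z (fun x => a • Tl (-z) U x) = fun x => a • U x := by
    funext x
    show a • Tl (-z) U (x - z) = a • U x
    have := congrFun e1 x
    rw [← this]
    rfl
  rw [e2] at h1
  refine h1.mono ?_
  rw [mul_one, one_pow, mul_one]
  exact div_le_div_of_nonneg_right (by linarith) ha.le

/-- Small localised perturbations of every datum, at every viscosity. -/
theorem mainB01U (M : Mst q X) (hq1 : q < 5 / 4) (hδ : 0 ≤ 1 + δ)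
    (hη : 0 < 2 * (1 + δ) - q * (4 * q - 2))
    (hU : CF U) (hd : ∀ x, dvg U x = 0) (ha : Aw0 U) {r ε N : ℝ} (hr : 0 < r) (hr3 : r < 3)
    (hqr : q ≤ 1 + (3 - r) / 8)
    (hε : 0 < ε) : ∃ k₀ : ℕ, ∀ k ≥ k₀, ∃ F : V → V, CF F ∧ (∀ x, dvg F x = 0) ∧
      (∀ x, F x ≠ 0 → x ∈ CC ε) ∧ (∀ᶠ x in 𝓝 0, F x = 0) ∧
      ∫ x, ‖F x‖ ^ r ≤ ε ∧ ∃ (p : ℕ → V → V) (g : ℕ → Fin 3 → V → V) (ρ : ℝ),
        Fam q 0 (fun x => U x + F x) p g ∧
        Sup (fun x => x ∈ tsupport U ∨ x ∈ CC ε) 0 p g ∧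
        Tail (fun m => M.pre.sc.P (m + 1)) (G3 M.pre.sc.P) k 0 p g ∧ ∀ ν, 0 ≤ ν → ν ≤ N →
          Blo δ 0 ρ p g ν (fun x => U x + F x) ε := by
  have hq := M.pre.hγ
  obtain ⟨V0, T0, φ, l, R1, S, hDV, cV, cT, cφ⟩ := exists_srcC
  obtain ⟨lU, hlU, hz⟩ := ha
  have hR1 : 0 < R1 := S.l0.trans_le S.lR
  have hK : 0 < cK V0 T0 := S.cK_pos M.pre.sc
  have hβ0 := β0_pos
  have hDup := Dup_nonneg M.pre.sc
  have hD2 : 0 ≤ Dir T0 T0 := Dir_nonneg' _
  have hN : 0 < ip V0 V0 := S.n0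
  -- the exponents
  obtain ⟨κ', hκ'⟩ : ∃ κ' : ℝ, κ' = kq q - 5 / 6 := ⟨_, rfl⟩
  have hκ4 : 4 < kq q := by
    unfold kq
    rw [lt_div_iff₀ (by linarith)]
    linarith
  have hκ'0 : 0 < κ' := by linarith
  have hκr : 8 ≤ kq q * (3 - r) := by
    unfold kq
    rw [div_mul_eq_mul_div, le_div_iff₀ (by linarith)]
    linarith
  obtain ⟨β, hβ1, hβ2⟩ : ∃ β : ℝ, 10 / 3 < κ' * (1 - β) ∧ r * (3 - β) - 6 < 0 := by
    refine ⟨((3 - 6 / r) + (1 - 10 / (3 * κ'))) / 2, ?_, ?_⟩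
    · have h1 : 10 / (3 * κ') < 6 / r - 2 := by
        have h2 : 6 / r - 2 = (6 - 2 * r) / r := by
          field_simp
        rw [h2, div_lt_div_iff₀ (by positivity) hr]
        nlinarith
      have h3 : κ' * (10 / (3 * κ')) = 10 / 3 := by
        field_simp
      nlinarith
    · have h1 : 10 / (3 * κ') < 6 / r - 2 := by
        have h2 : 6 / r - 2 = (6 - 2 * r) / r := by
          field_simp
        rw [h2, div_lt_div_iff₀ (by positivity) hr]
        nlinarith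
      have h3 : r * (6 / r) = 6 := by
        field_simp
      nlinarith
  have ts : Tendsto (fun x : ℝ => x ^ κ') atTop atTop := tendsto_rpow_atTop hκ'0
  have p2 : Tendsto (fun s : ℝ => s ^ 2) atTop atTop := tendsto_pow_atTop two_ne_zero
  have p4 : Tendsto (fun s : ℝ => s ^ 4) atTop atTop := tendsto_pow_atTop four_ne_zero
  have E1 : ∀ᶠ s : ℝ in atTop, R1 / lU < s ^ 2 := p2.eventually_gt_atTop _
  have E2 : ∀ᶠ s : ℝ in atTop, R1 / ε ≤ s ^ 2 := p2.eventually_ge_atTop _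
  have E3 : ∀ᶠ s : ℝ in atTop, Dir U U * ip V0 V0 / (Dir V0 V0 * ip U U) ≤ s ^ 4 :=
    p4.eventually_ge_atTop _
  have E6 : ∀ᶠ s : ℝ in atTop, s ^ (r * (3 - β) - 6) * ∫ x, ‖V0 x‖ ^ r ≤ ε := by
    have h1 : Tendsto (fun s : ℝ => s ^ (-(6 - r * (3 - β))) * ∫ x, ‖V0 x‖ ^ r) atTop
        (𝓝 (0 * ∫ x, ‖V0 x‖ ^ r)) :=
      (tendsto_rpow_neg_atTop (by linarith)).mul_const _
    rw [zero_mul, neg_sub] at h1
    exact h1.eventually_le_const hε
  have F1 : ∀ᶠ R : ℝ in atTop, (200 * cK V0 T0 * (Dir V0 V0 / ip V0 V0)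
      + 200 * cK V0 T0 * ((Dir T0 T0 + 1 + Dup) / β0)) * |N| ≤ R ^ (κ' * (1 - β) - 10 / 3) :=
    (tendsto_rpow_atTop (by linarith)).eventually_ge_atTop _
  have F2 : ∀ᶠ R : ℝ in atTop, 9 * cK V0 T0 / ε ≤ R ^ (κ' * (5 - β) - 1) :=
    (tendsto_rpow_atTop (by nlinarith)).eventually_ge_atTop _
  have F3 : ∀ᶠ R : ℝ in atTop, 16 ≤ R ^ (2 * (1 + δ) - q * (4 * q - 2)) :=
    (tendsto_rpow_atTop hη).eventually_ge_atTop _
  have F4 : ∀ᶠ x : ℝ in atTop, 17 / 4 / ε ≤ (x ^ kq q) ^ 2 :=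
    ((tendsto_pow_atTop two_ne_zero).comp
      (tendsto_rpow_atTop (kq_pos hq))).eventually_ge_atTop _
  obtain ⟨k₀, hk₀⟩ := (M.tend.eventually (((((((((S.evU (μ := 5 / 6) (by norm_num)).and
    (ts.eventually E1)).and (ts.eventually E2)).and (ts.eventually E3)).and
    (ts.eventually E6)).and F1).and F2).and F3).and
    (F4.and (ts.eventually (eventually_ge_atTop 1))))).exists_forall_of_atTop
  refine ⟨k₀, fun k hk => ?_⟩
  obtain ⟨⟨⟨⟨⟨⟨⟨⟨hR, e1⟩, e2⟩, e3⟩, e6⟩, f1⟩, f2⟩, f3⟩, f4, hs1⟩ := hk₀ k hk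
  have hRb := hR.big
  set R := rh X q (k + 1) with hRd
  have hR0 : 0 < R := by linarith
  set s := R ^ κ' with hsd
  have hs : 0 < s := Real.rpow_pos_of_pos hR0 _
  have hb : 0 < s ^ (-β) := Real.rpow_pos_of_pos hs _
  have hws : R ^ kq q = R ^ (5 / 6 : ℝ) * s := by
    rw [hsd, ← Real.rpow_add hR0]
    congr 1
    linarith
  rw [div_lt_iff₀ hlU] at e1
  rw [div_le_iff₀ hε] at e2 f2
  have hP : Prt U V0 T0 φ l R1 lU s (s ^ (-β)) :=
    { S := S
      cu := hU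
      du := hd
      zu := hz
      s1 := hs1
      sR := e1
      b0 := hb
      hD := by
        rcases (ip_nonneg U).lt_or_eq with h | h
        · rw [div_le_iff₀ (by positivity)] at e3
          linarith
        · have h1 : Dir U U = 0 := by
            apply Dir_zero_of
            intro x
            exact Or.inl (Eventually.of_forall fun y => zero_of_ip hU h.symm.le y)
          rw [h1, ← h]
          simp }
  have hwp : 0 < R ^ kq q := Real.rpow_pos_of_pos hR0 _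
  have small : ∀ {F : V → V}, (∀ x, F x ≠ 0 → ‖x‖ ≤ R1) →
      (∀ x, F x ≠ 0 → 3 * |x 0| ≤ x 2 ∧ 3 * |x 1| ≤ x 2) → ∀ x, F (s ^ 2 • x) ≠ 0 →
      x ∈ CC ε := by
    intro F hF hF' x hx
    have h5 : 0 < s ^ 2 := by positivity
    obtain ⟨h2, h3⟩ := hF' _ hx
    simp only [Pi.smul_apply, smul_eq_mul, abs_mul, abs_of_pos h5] at h2 h3
    have h4 := hF _ hx
    rw [norm_smul, Real.norm_eq_abs, abs_of_pos (by positivity)] at h4
    refine ⟨?_, ?_, by nlinarith⟩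
    · by_contra hcon
      push Not at hcon
      nlinarith
    · by_contra hcon
      push Not at hcon
      nlinarith
  obtain ⟨p, g, ρ, hF, hSup, hT, hB⟩ := blowU1 S M hR hδ f3 hP hws (r := ε) (by
      rw [div_le_iff₀ hε] at f4
      rw [div_le_iff₀ (by positivity)]
      linarith) (by
    rintro x (hx | hx)
    · exact Or.inr (small (fun y hy => (S.st y hy).2) cT x hx)
    · exact Or.inr (small (fun y hy => (S.sf y hy).2) cφ x hx))
  have hSup' : Sup (fun x => x ∈ tsupport U ∨ x ∈ CC ε) 0 p g := by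
    apply hSup.mono
    rintro x (hx | hx)
    · by_contra hcon
      rw [not_or] at hcon
      have h1 : ∀ᶠ y in 𝓝 x, P0 U V0 (s ^ (-β)) s y = 0 := by
        filter_upwards [(isClosed_tsupport U).isOpen_compl.mem_nhds hcon.1,
          (CC_closed ε).isOpen_compl.mem_nhds hcon.2] with y hy1 hy2
        have k1 : U y = 0 := image_eq_zero_of_notMem_tsupport hy1
        have k2 : V0 (s ^ 2 • y) = 0 := by
          by_contra h
          exact hy2 (small (fun y hy => (S.su y hy).2) cV y h)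
        show U y + s ^ (-β) • (s ^ 3 • V0 (s ^ 2 • y)) = 0
        rw [k1, k2, smul_zero, smul_zero, add_zero]
      exact (notMem_tsupport_iff_eventuallyEq.2 h1) hx
    · exact Or.inr hx
  refine ⟨fun x => s ^ (-β) • dil s V0 x, hP.cV.smul _, fun x => ?_, fun x hx => ?_, ?_, ?_,
    p, g, ρ, hF, hSup', hT, fun ν hν hνN => ?_⟩
  · rw [dvg_smul _ hP.cV, dvg_dil S.cu.smc, S.du, mul_zero, mul_zero]
  · have h2 : V0 (s ^ 2 • x) ≠ 0 := by
      intro h3
      apply hx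
      show s ^ (-β) • (s ^ 3 • V0 (s ^ 2 • x)) = 0
      rw [h3, smul_zero, smul_zero]
    exact small (fun y hy => (S.su y hy).2) cV x h2
  · have h5 : 0 < s ^ 2 := by positivity
    have h6 : ∀ᶠ x : V in 𝓝 0, ‖x‖ < l / s ^ 2 := nhds_ltn (by
      rw [norm_zero]
      exact div_pos S.l0 h5)
    filter_upwards [h6] with x hx
    have h7 : V0 (s ^ 2 • x) = 0 := by
      by_contra h
      have h4 := (S.su _ h).1
      rw [norm_smul, Real.norm_eq_abs, abs_of_pos h5] at h4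
      rw [lt_div_iff₀ h5] at hx
      linarith
    show s ^ (-β) • (s ^ 3 • V0 (s ^ 2 • x)) = 0
    rw [h7, smul_zero, smul_zero]
  · rw [int_dil_rpow V0 hs hb]
    have e7 : (s ^ (-β) * s ^ 3) ^ r * (s ^ 6)⁻¹ = s ^ (r * (3 - β) - 6) := by
      have h3 : s ^ (3 : ℕ) = s ^ (3 : ℝ) := by norm_cast
      have h6 : (s ^ (6 : ℕ))⁻¹ = s ^ (-6 : ℝ) := by
        rw [Real.rpow_neg hs.le]
        norm_cast
      rw [h3, h6, ← Real.rpow_add hs, ← Real.rpow_mul hs.le, ← Real.rpow_add hs]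
      congr 1
      ring
    rw [e7]
    exact e6
  · have h1 : s ^ (-β) * s = s ^ (1 - β) := by
      have : s ^ (-β) * s = s ^ (-β) * s ^ (1 : ℝ) := by rw [Real.rpow_one]
      rw [this, ← Real.rpow_add hs]
      congr 1
      ring
    have h2 : s ^ (-β) * s ^ 5 = s ^ (5 - β) := by
      have h5 : s ^ (5 : ℕ) = s ^ (5 : ℝ) := by norm_cast
      rw [h5, ← Real.rpow_add hs]
      congr 1
      ring
    have h11 : cD V0 T0 R (R ^ (5 / 6 : ℝ)) * ν ≤ s ^ (1 - β) := by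
      have g1 : (R ^ (5 / 6 : ℝ)) ^ 4 = R ^ (10 / 3 : ℝ) := by
        rw [← Real.rpow_natCast (R ^ (5 / 6 : ℝ)) 4, ← Real.rpow_mul hR0.le]
        norm_num
      have g2 : R ≤ R ^ (10 / 3 : ℝ) := by
        calc R = R ^ (1 : ℝ) := (Real.rpow_one R).symm
          _ ≤ _ := Real.rpow_le_rpow_of_exponent_le (by linarith) (by norm_num)
      have g3 : s ^ (1 - β) = R ^ (κ' * (1 - β) - 10 / 3) * R ^ (10 / 3 : ℝ) := by
        rw [hsd, ← Real.rpow_mul hR0.le, ← Real.rpow_add hR0]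
        congr 1
        ring
      have g4 : 0 < R ^ (10 / 3 : ℝ) := Real.rpow_pos_of_pos hR0 _
      have g5 : 0 ≤ 200 * cK V0 T0 * (Dir V0 V0 / ip V0 V0) := by positivity
      have g6 : 0 ≤ 200 * cK V0 T0 * ((Dir T0 T0 + 1 + Dup) / β0) := by positivity
      have g7 : cD V0 T0 R (R ^ (5 / 6 : ℝ)) ≤ (200 * cK V0 T0 * (Dir V0 V0 / ip V0 V0)
          + 200 * cK V0 T0 * ((Dir T0 T0 + 1 + Dup) / β0)) * R ^ (10 / 3 : ℝ) := by
        unfold cD
        rw [g1, add_mul]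
        exact add_le_add (mul_le_mul_of_nonneg_left g2 g5) le_rfl
      have g8 : ν ≤ |N| := hνN.trans (le_abs_self N)
      calc cD V0 T0 R (R ^ (5 / 6 : ℝ)) * ν ≤ (200 * cK V0 T0 * (Dir V0 V0 / ip V0 V0)
          + 200 * cK V0 T0 * ((Dir T0 T0 + 1 + Dup) / β0)) * R ^ (10 / 3 : ℝ) * |N| :=
            mul_le_mul g7 g8 hν (by positivity)
        _ = (200 * cK V0 T0 * (Dir V0 V0 / ip V0 V0)
          + 200 * cK V0 T0 * ((Dir T0 T0 + 1 + Dup) / β0)) * |N| * R ^ (10 / 3 : ℝ) := by ring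
        _ ≤ R ^ (κ' * (1 - β) - 10 / 3) * R ^ (10 / 3 : ℝ) :=
            mul_le_mul_of_nonneg_right f1 g4.le
        _ = _ := g3.symm
    have h3 := hB ν hν 1 one_pos (by
      rw [one_mul, h1]
      exact h11)
    have e8 : (fun x => (1 : ℝ) • P0 U V0 (s ^ (-β)) s x)
        = fun x => U x + s ^ (-β) • dil s V0 x := by
      funext x
      rw [one_smul]
      rfl
    rw [e8] at h3
    refine h3.mono ?_
    rw [one_mul, h2, div_le_iff₀ (by positivity)]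
    have g3 : s ^ (5 - β) = R ^ (κ' * (5 - β) - 1) * R := by
      have : R ^ (κ' * (5 - β) - 1) * R = R ^ (κ' * (5 - β) - 1) * R ^ (1 : ℝ) := by
        rw [Real.rpow_one]
      rw [this, hsd, ← Real.rpow_mul hR0.le, ← Real.rpow_add hR0]
      congr 1
      ring
    rw [g3]
    have := mul_le_mul_of_nonneg_right f2 hR0.le
    linarith

/-- The same at every point off the support. -/
theorem mainB1U (M : Mst q X) (hq1 : q < 5 / 4) (hδ : 0 ≤ 1 + δ)
    (hη : 0 < 2 * (1 + δ) - q * (4 * q - 2))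
    (hU : CF U) (hd : ∀ x, dvg U x = 0) {z : V} (hz : ∀ᶠ x in 𝓝 z, U x = 0) {r ε N : ℝ}
    (hr : 0 < r) (hr3 : r < 3) (hqr : q ≤ 1 + (3 - r) / 8)
    (hε : 0 < ε) : ∃ k₀ : ℕ, ∀ k ≥ k₀, ∃ F : V → V, CF F ∧ (∀ x, dvg F x = 0) ∧
      (∀ x, F x ≠ 0 → x - z ∈ CC ε) ∧ (∀ᶠ x in 𝓝 z, F x = 0) ∧
      ∫ x, ‖F x‖ ^ r ≤ ε ∧ ∃ (p : ℕ → V → V) (g : ℕ → Fin 3 → V → V) (ρ : ℝ),
        Fam q z (fun x => U x + F x) p g ∧
        Sup (fun x => x ∈ tsupport U ∨ x - z ∈ CC ε) z p g ∧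
        Tail (fun m => M.pre.sc.P (m + 1)) (G3 M.pre.sc.P) k z p g ∧ ∀ ν, 0 ≤ ν → ν ≤ N →
          Blo δ z ρ p g ν (fun x => U x + F x) ε := by
  have hU' : CF (Tl (-z) U) := ⟨sm_Tl _ hU.sm, cs_Tl _ hU.cs⟩
  have hd' : ∀ x, dvg (Tl (-z) U) x = 0 := fun x => by rw [dvg_Tl, hd]
  obtain ⟨k₀, hk₀⟩ := mainB01U M hq1 hδ hη hU' hd' (Aw0_Tl hz) (N := N) hr hr3 hqr hε
  refine ⟨k₀, fun k hk => ?_⟩
  obtain ⟨F, f1, f2, f3, f5, f4, p, g, ρ, hF, hSup, hT, hB⟩ := hk₀ k hk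
  have e1 : Tl z (fun x => Tl (-z) U x + F x) = fun x => U x + Tl z F x := by
    funext x
    show Tl (-z) U (x - z) + F (x - z) = U x + F (x - z)
    have := congrFun (Tl_inv z U) x
    rw [← this]
    rfl
  refine ⟨Tl z F, ⟨sm_Tl z f1.sm, cs_Tl z f1.cs⟩, fun x => by rw [dvg_Tl, f2],
    fun x hx => f3 _ hx, ?_, ?_, fun n => Tl z (p n), fun n i => Tl z (g n i), ρ, ?_,
    hSup.tl, hT.tl z, fun ν h0 h1 => ?_⟩
  · have h1 : Tendsto (fun y : V => y - z) (𝓝 z) (𝓝 0) := C980.tendsto_sub_self z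
    exact h1.eventually f5
  · exact (int_Tl z (fun x => ‖F x‖ ^ r)).le.trans f4
  · have := hF.tl (z := z)
    rw [e1] at this
    exact this
  · have := (hB ν h0 h1).tl (z := z)
    rw [e1] at this
    exact this

end

end Pool.Agent.Run7.h407.G.X.DDu
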