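import Mathlib

/-!
Definitions for the Navier-Stokes equations with Dirichlet boundary conditions projected on spaces
with scalar constraints.
-/

namespace Pool.Agent.Run7.h407.DD

open Set Filter Topology MeasureTheory
open scoped ContDiff

/-- Points and vectors of `ℝ³`. -/
abbrev E3 : Type := Fin 3 → ℝ

/-- The maximum norm. -/
noncomputable def mag (v : E3) : ℝ := ‖v‖

/-- The distance of two points in the maximum norm. -/
noncomputable def dst (x z : E3) : ℝ := ‖x - z‖

/-- The integral over the set `Ω`. -/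
noncomputable def intOn (Ω : Set E3) (f : E3 → ℝ) : ℝ := ∫ x in Ω, f x

/-- The integral over `ℝ³`. -/
noncomputable def total (f : E3 → ℝ) : ℝ := ∫ x, f x

/-- The function is square integrable over `Ω`. -/
def SqInt (Ω : Set E3) (f : E3 → ℝ) : Prop := MemLp f 2 (volume.restrict Ω)

/-- The property holds for almost all points of `Ω`. -/
def AEOn (Ω : Set E3) (Q : E3 → Prop) : Prop := ∀ᵐ x ∂(volume.restrict Ω), Q x

/-- The property holds for almost all times in `(0,T)`. -/
def AETime (T : ℝ) (Q : ℝ → Prop) : Prop := ∀ᵐ t ∂(volume.restrict (Ioo 0 T)), Q t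

/-- The derivative of a scalar function in the direction of the `j`-th axis. -/
noncomputable def pderiv (j : Fin 3) (f : E3 → ℝ) (x : E3) : ℝ := fderiv ℝ f x (Pi.single j 1)

/-- The divergence of a vector field. -/
noncomputable def divergence (u : E3 → E3) (x : E3) : ℝ := ∑ i, pderiv i (fun y => u y i) x

/-- The matrix `∂_j v_i`. -/
noncomputable def grad (v : E3 → E3) (x : E3) (i j : Fin 3) : ℝ := pderiv j (fun y => v y i) x

/-- The acceleration `(u·∇)u`. -/
noncomputable def acceleration (u : E3 → E3) (x : E3) : E3 :=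
  fun i => ∑ j, u x j * pderiv j (fun y => u y i) x

/-- `U` is a steady Euler flow: the curl of `(U·∇)U` vanishes (so that `(U·∇)U` is a gradient). -/
def IsSteady (U : E3 → E3) : Prop := ∀ (i j : Fin 3) (x : E3),
  pderiv i (fun y => acceleration U y j) x = pderiv j (fun y => acceleration U y i) x

/-- Smooth fields with compact support. -/
def SmoothCompact (v : E3 → E3) : Prop := ContDiff ℝ ∞ v ∧ HasCompactSupport v

/-- Smooth fields with compact support in `Ω`. -/
def SmoothIn (Ω : Set E3) (v : E3 → E3) : Prop := SmoothCompact v ∧ tsupport v ⊆ Ω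

/-- Smooth divergence-free fields with compact support in `Ω`. -/
def IsTest (Ω : Set E3) (v : E3 → E3) : Prop := SmoothIn Ω v ∧ ∀ x, divergence v x = 0

/-- The field vanishes outside the ball `|x - z| ≤ ρ`. -/
def InBall (z : E3) (ρ : ℝ) (v : E3 → E3) : Prop := ∀ x, ρ < dst x z → v x = 0

/-- The point `z` is not in the support of the field. -/
def VanishesNear (z : E3) (v : E3 → E3) : Prop := ∃ ρ > 0, ∀ x, dst x z < ρ → v x = 0

/-- The translate `v(x - z)`. -/
def shift (z : E3) (v : E3 → E3) : E3 → E3 := fun x => v (x - z)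

/-- The multiple `a v`. -/
def scale (a : ℝ) (v : E3 → E3) : E3 → E3 := fun x i => a * v x i

/-- The sum of two fields. -/
def plus (v w : E3 → E3) : E3 → E3 := fun x i => v x i + w x i

/-- The truncated cone with vertex `z` around the third axis: the points `z + y` with
`0 < y₃ ≤ ρ` and `3 |y₁|, 3 |y₂| ≤ y₃`. -/
def cone (z : E3) (ρ : ℝ) : Set E3 :=
  {x | 0 < x 2 - z 2 ∧ x 2 - z 2 ≤ ρ ∧ 3 * |x 0 - z 0| ≤ x 2 - z 2 ∧ 3 * |x 1 - z 1| ≤ x 2 - z 2}

/-- The `L²` inner product `∫ u · v dx`. -/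
noncomputable def innerL2 (u v : E3 → E3) : ℝ := total fun x => ∑ i, u x i * v x i

/-- The Dirichlet form `∫ ∇u : ∇v dx`. -/
noncomputable def dirichlet (u v : E3 → E3) : ℝ :=
  total fun x => ∑ i, ∑ j, pderiv j (fun y => u y i) x * pderiv j (fun y => v y i) x

/-- `w` is in the space `H`: the closure of the test fields in `L²(Ω)`. -/
structure InH (Ω : Set E3) (w : E3 → E3) : Prop where
  sqInt : ∀ i, SqInt Ω (fun x => w x i)
  approx : ∀ ε > 0, ∃ v, IsTest Ω v ∧ intOn Ω (fun x => ∑ i, (w x i - v x i) ^ 2) < ε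

/-- `w` is in the space `V` and `D` is its gradient: `(w, D)` is in the closure of the pairs
`(v, ∇v)`, `v` a test field, in `L²(Ω)`. -/
structure InV (Ω : Set E3) (w : E3 → E3) (D : E3 → Fin 3 → Fin 3 → ℝ) : Prop where
  sqInt : ∀ i, SqInt Ω (fun x => w x i)
  sqInt_grad : ∀ i j, SqInt Ω (fun x => D x i j)
  approx : ∀ ε > 0, ∃ v, IsTest Ω v ∧
    intOn Ω (fun x => ∑ i, (w x i - v x i) ^ 2 + ∑ i, ∑ j, (D x i j - grad v x i j) ^ 2) < ε

/-- `u` is a weak solution on `(0,T)`, with initial value `u₀`, of the Navier-Stokes equations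
with Dirichlet boundary conditions in `Ω` projected on the space `W`, with the regularity
`∂ₜu ∈ L^∞(0,T;L²(Ω))`: for almost every `t` the field `u(t)` is in `W` and in `V`, with gradient
`D(t)`; `u` and `∂ₜu = u'` are bounded in `L²(Ω)`; and for almost every `t` the equation holds when
it is tested with any field of `W` which is in `V`. -/
structure IsStrong (Ω : Set E3) (W : Set (E3 → E3)) (ν T : ℝ) (u₀ : E3 → E3)
    (u : ℝ → E3 → E3) (D : ℝ → E3 → Fin 3 → Fin 3 → ℝ) (u' : ℝ → E3 → E3) : Prop where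
  meas : ∀ i, AEStronglyMeasurable (fun z : ℝ × E3 => u' z.1 z.2 i)
    ((volume.restrict (Ioo 0 T)).prod (volume.restrict Ω))
  mem : AETime T fun t => u t ∈ W ∧ InV Ω (u t) (D t)
  bound : ∃ C, AETime T fun t => (∀ i, SqInt Ω (fun x => u' t x i)) ∧
    intOn Ω (fun x => ∑ i, u t x i ^ 2) ≤ C ∧ intOn Ω (fun x => ∑ i, u' t x i ^ 2) ≤ C
  ftc : AETime T fun t => AEOn Ω fun x => ∀ i, u t x i = u₀ x i + ∫ s in (0 : ℝ)..t, u' s x i
  eqn : AETime T fun t => ∀ v ∈ W, ∀ E, InV Ω v E →
    intOn Ω (fun x => ∑ i, (u' t x i * v x i + (∑ j, u t x j * D t x i j) * v x i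
      + ν * ∑ j, D t x i j * E x i j)) = 0

/-- `w` is in `H`, extended by zero outside `Ω`, and orthogonal to all the fields `g n i`. -/
structure Constrained (Ω : Set E3) (g : ℕ → Fin 3 → E3 → E3) (w : E3 → E3) : Prop where
  zero : ∀ x, x ∉ Ω → w x = 0
  inH : InH Ω w
  orth : ∀ (n : ℕ) (i : Fin 3), innerL2 w (g n i) = 0

/-- The linear spaces `W` of fields of `H` satisfying the constraints which contain all smooth
fields with compact support of the form `∑ c_n p_n` (they vanish outside `Ω`). -/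
structure IsSpace (Ω : Set E3) (p : ℕ → E3 → E3) (g : ℕ → Fin 3 → E3 → E3)
    (W : Set (E3 → E3)) : Prop where
  linear : ∀ v ∈ W, ∀ w ∈ W, ∀ a b : ℝ, plus (scale a v) (scale b w) ∈ W
  upper : ∀ w ∈ W, Constrained Ω g w
  lower : ∀ v, SmoothCompact v →
    (∃ c : ℕ → ℝ, ∀ x i, HasSum (fun n => c n * p n x i) (v x i)) → v ∈ W

/-- The universal modes `P m` and constraint fields `G m i`: smooth fields supported in the ball
`|x| ≤ 2^(-q^m)`; the modes are divergence-free and not zero; the constraint fields vanish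
near `0`. -/
structure IsUniversal (q : ℝ) (P : ℕ → E3 → E3) (G : ℕ → Fin 3 → E3 → E3) : Prop where
  mode : ∀ m, IsTest univ (P m) ∧ 0 < innerL2 (P m) (P m) ∧ InBall 0 (2 ^ (-(q ^ m))) (P m)
  field : ∀ m i, SmoothCompact (G m i) ∧ VanishesNear 0 (G m i) ∧
    InBall 0 (2 ^ (-(q ^ m))) (G m i)

/-- The modes `p n` and the constraint fields `g n i` in `Ω`: `p 0 = U`; the modes are test
fields, none of them zero, mutually orthogonal in `L²` and for the Dirichlet form; the constraint
fields are smooth with compact support in `Ω \ {z}`; for `n ≥ 3` both are the universal ones with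
the index `n + k`, translated to the point `z`; and all fields of `H` which satisfy the constraints
form an admissible space (the largest one). -/
structure IsFamily (Ω : Set E3) (P : ℕ → E3 → E3) (G : ℕ → Fin 3 → E3 → E3) (k : ℕ) (z : E3)
    (U : E3 → E3) (p : ℕ → E3 → E3) (g : ℕ → Fin 3 → E3 → E3) : Prop where
  first : p 0 = U
  mode : ∀ n, IsTest Ω (p n) ∧ 0 < innerL2 (p n) (p n)
  orthogonal : ∀ m n, m ≠ n → innerL2 (p m) (p n) = 0 ∧ dirichlet (p m) (p n) = 0
  field : ∀ n i, SmoothIn (Ω \ {z}) (g n i)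
  universal : ∀ n ≥ 3, p n = shift z (P (n + k)) ∧ ∀ i, g n i = shift z (G (n + k) i)
  largest : IsSpace Ω p g {w | Constrained Ω g w}

/-- Blow-up at `z` before the time `T₀` of the solutions with the datum `v` of the Dirichlet
problem in `Ω` projected on the admissible spaces. There are `T ≤ T₀` and a field `u`, smooth on
`[0,T) × ℝ³`, with `u(0) = v`, such that every `u(t)` is divergence-free, vanishes outside
`K \ {z}`, where `K` is a compact subset of `Ω ∪ {z}`, and is in `V`, `|u(t,x)| ≤ C |x - z|^(3-4q)`,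
the `L³` norm of `u(t)` tends to infinity as `t → T`, and for every admissible space `W`: `u` is a
solution on `(0,S)` in the sense of `IsStrong` for all `S < T`, and every solution on an interval
`(0,S)` in the sense of `IsStrong`, with the same datum, has `S < T` and coincides with `u`. -/
def BlowsUp (Ω : Set E3) (q : ℝ) (z : E3) (p : ℕ → E3 → E3) (g : ℕ → Fin 3 → E3 → E3) (ν : ℝ)
    (v : E3 → E3) (T₀ : ℝ) : Prop :=
  ∃ T, 0 < T ∧ T ≤ T₀ ∧ ∃ u : ℝ → E3 → E3,
    ContDiffOn ℝ ∞ (fun y : ℝ × E3 => u y.1 y.2) (Ico 0 T ×ˢ univ) ∧ u 0 = v ∧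
    (∃ K : Set E3, IsCompact K ∧ K ⊆ Ω ∪ {z} ∧ ∀ t ∈ Ico 0 T,
      (∀ x, divergence (u t) x = 0) ∧ InV Ω (u t) (grad (u t)) ∧
      ∀ x, x ∉ K \ {z} → u t x = 0) ∧
    (∃ C, ∀ t ∈ Ico 0 T, ∀ x, mag (u t x) * dst x z ^ (4 * q - 3) ≤ C) ∧
    Tendsto (fun t => total fun x => mag (u t x) ^ 3) (𝓝[<] T) atTop ∧
    ∀ W : Set (E3 → E3), IsSpace Ω p g W →
      (∀ S, S < T → IsStrong Ω W ν S v u (fun t => grad (u t))
        (fun t x i => deriv (fun s => u s x i) t)) ∧
      ∀ (S : ℝ) (w : ℝ → E3 → E3) (D : ℝ → E3 → Fin 3 → Fin 3 → ℝ) (w' : ℝ → E3 → E3),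
        IsStrong Ω W ν S v w D w' → S < T ∧ AETime S fun t => AEOn Ω fun x => w t x = u t x

end Pool.Agent.Run7.h407.DD
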