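import Mathlib
import Pool.Agent.Run7.h407.DD.Defs
import Pool.Agent.Run7.h407.DD.LocU

/-!
The blow-up theorem for the Dirichlet problem in terms of the definitions of DD/Defs, from the
theorems of helper980 (Run7/h980/BD, DW) and the universal constraint fields.
-/

namespace Pool.Agent.Run7.h407.DD

open Set Filter Topology MeasureTheory
open scoped ContDiff
open Pool.Agent.Run7.h980

variable {Ω : Set E3} {p : ℕ → E3 → E3} {g : ℕ → Fin 3 → E3 → E3} {z : E3}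

theorem test_iff {v : E3 → E3} : IsTest Ω v ↔ DW.IsTest Ω v :=
  ⟨fun h => ⟨h.1.1.1, h.1.1.2, h.1.2, h.2⟩, fun h => ⟨⟨⟨h.smooth, h.compact⟩, h.supp⟩, h.div_free⟩⟩

theorem inH_iff {w : E3 → E3} : InH Ω w ↔ DW.InH Ω w := by
  constructor
  · intro h
    refine ⟨h.sqInt, fun ε hε => ?_⟩
    obtain ⟨v, h1, h2⟩ := h.approx ε hε
    exact ⟨v, test_iff.1 h1, h2⟩
  · intro h
    refine ⟨h.memL2, fun ε hε => ?_⟩
    obtain ⟨v, h1, h2⟩ := h.approx ε hε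
    exact ⟨v, test_iff.2 h1, h2⟩

theorem inV_iff {w : E3 → E3} {D : E3 → Fin 3 → Fin 3 → ℝ} : InV Ω w D ↔ DW.InV Ω w D := by
  constructor
  · intro h
    refine ⟨h.sqInt, h.sqInt_grad, fun ε hε => ?_⟩
    obtain ⟨v, h1, h2⟩ := h.approx ε hε
    exact ⟨v, test_iff.1 h1, h2⟩
  · intro h
    refine ⟨h.memL2, h.memL2_grad, fun ε hε => ?_⟩
    obtain ⟨v, h1, h2⟩ := h.approx ε hε
    exact ⟨v, test_iff.2 h1, h2⟩

theorem constrained_iff {w : E3 → E3} : Constrained Ω g w ↔ DW.Constrained Ω g w :=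
  ⟨fun h => ⟨h.zero, inH_iff.1 h.inH, h.orth⟩, fun h => ⟨h.zero, inH_iff.2 h.inH, h.orth⟩⟩

/-- An admissible space as a submodule. -/
def IsSpace.sub {W : Set (E3 → E3)} (h : IsSpace Ω p g W) : Submodule ℝ (E3 → E3) where
  carrier := W
  add_mem' := fun {v w} hv hw => by
    have h1 := h.linear v hv w hw 1 1
    have e : plus (scale 1 v) (scale 1 w) = v + w := by
      funext x i
      simp [plus, scale]
    rwa [e] at h1
  zero_mem' := h.lower 0 ⟨contDiff_const, HasCompactSupport.zero⟩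
    ⟨fun _ => 0, fun x i => by simpa using (hasSum_zero : HasSum (fun _ : ℕ => (0 : ℝ)) 0)⟩
  smul_mem' := fun a v hv => by
    have h1 := h.linear v hv v hv a 0
    have e : plus (scale a v) (scale 0 v) = a • v := by
      funext x i
      simp [plus, scale]
    rwa [e] at h1

theorem IsSpace.bd {W : Set (E3 → E3)} (h : IsSpace Ω p g W) : BD.IsSpace Ω p g h.sub :=
  ⟨fun w hw => constrained_iff.1 (h.upper w hw), fun v h1 h2 ⟨c, hc⟩ => h.lower v ⟨h1, h2⟩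
    ⟨c, fun x i => (Pi.hasSum.1 (hc x)) i⟩⟩

theorem strong_iff {W : Set (E3 → E3)} (h : IsSpace Ω p g W) {ν T : ℝ} {u₀ : E3 → E3}
    {u : ℝ → E3 → E3} {D : ℝ → E3 → Fin 3 → Fin 3 → ℝ} {u' : ℝ → E3 → E3} :
    IsStrong Ω W ν T u₀ u D u' ↔ DW.IsStrong Ω h.sub ν T u₀ u D u' := by
  constructor
  · intro h
    refine ⟨h.meas, ?_, h.bound, h.ftc, ?_⟩
    · filter_upwards [h.mem] with t ht
      exact ⟨ht.1, inV_iff.1 ht.2⟩
    · filter_upwards [h.eqn] with t ht v hv E hE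
      exact ht v hv E (inV_iff.2 hE)
  · intro h
    refine ⟨h.meas, ?_, h.bound, h.ftc, ?_⟩
    · filter_upwards [h.mem] with t ht
      exact ⟨ht.1, inV_iff.2 ht.2⟩
    · filter_upwards [h.eqn] with t ht v hv E hE
      exact ht v hv E (inV_iff.1 hE)

theorem vanishes_iff {v : E3 → E3} : VanishesNear z v ↔ ∀ᶠ x in 𝓝 z, v x = 0 := by
  rw [Metric.eventually_nhds_iff]
  constructor
  · rintro ⟨ρ, h1, h2⟩
    exact ⟨ρ, h1, fun x hx => h2 x (by rwa [dist_eq_norm] at hx)⟩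
  · rintro ⟨ρ, h1, h2⟩
    exact ⟨ρ, h1, fun x hx => h2 (by rwa [dist_eq_norm])⟩

theorem inBall_iff {ρ : ℝ} {v : E3 → E3} :
    InBall z ρ v ↔ ∀ x, v x ≠ 0 → ‖x - z‖ ≤ ρ := by
  constructor
  · intro h x hx
    by_contra hcon
    exact hx (h x (not_le.1 hcon))
  · intro h x hx
    by_contra hcon
    exact absurd (h x hcon) (not_le.2 hx)

theorem inBall_zero {ρ : ℝ} {v : E3 → E3} (h : ∀ x, v x ≠ 0 → ‖x‖ ≤ ρ) : InBall 0 ρ v :=
  inBall_iff.2 fun x hx => by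
    rw [sub_zero]
    exact h x hx

open Pool.Agent.Run7.h407.G.X in
theorem universal_of {q : ℝ} {P : ℕ → E3 → E3} {G : ℕ → Fin 3 → E3 → E3} (h : UF q P G) :
    IsUniversal q P G :=
  ⟨fun m => ⟨⟨⟨⟨(h.mode m).1, (h.mode m).2.1⟩, subset_univ _⟩, (h.mode m).2.2.1⟩,
      (h.mode m).2.2.2, inBall_zero (h.ballP m)⟩,
    fun m i => ⟨⟨(h.field m i).1, (h.field m i).2.1⟩, vanishes_iff.2 (h.field m i).2.2,
      inBall_zero (h.ballG m i)⟩⟩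

open Pool.Agent.Run7.h407.G.X in
theorem family_of {q : ℝ} {P : ℕ → E3 → E3} {G : ℕ → Fin 3 → E3 → E3} {k : ℕ}
    {U : E3 → E3} (h : BD.IsFamily Ω q z U p g) (ht : Tail P G k z p g) :
    IsFamily Ω P G k z U p g := by
  obtain ⟨Wm, hWm, hWi⟩ := h.big
  have key : ∀ w, w ∈ Wm ↔ Constrained Ω g w := fun w => (hWi w).trans constrained_iff.symm
  refine ⟨h.zero, fun n => ⟨test_iff.2 (h.mode n).1, (h.mode n).2⟩, h.orth,
    fun n i => ⟨⟨(h.field n i).1, (h.field n i).2.1⟩, (h.field n i).2.2⟩, fun n hn => ?_, ?_⟩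
  · obtain ⟨m, rfl⟩ := Nat.exists_eq_add_of_le' hn
    exact ht m
  · refine ⟨fun v hv w hw a b => ?_, fun w hw => hw, fun v hv ⟨c, hc⟩ => ?_⟩
    · refine (key _).1 ?_
      exact Wm.add_mem (Wm.smul_mem a ((key v).2 hv)) (Wm.smul_mem b ((key w).2 hw))
    · exact (key v).1 (hWm.lower v hv.1 hv.2 ⟨c, fun x => Pi.hasSum.2 (hc x)⟩)

theorem blowsUp_of {q ν T₀ : ℝ} {v : E3 → E3} (h : BD.BlowsUp Ω (4 * (q - 1)) z p g ν v T₀) :
    BlowsUp Ω q z p g ν v T₀ := by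
  obtain ⟨T, hT, hTA, u, k0, k1, ⟨K, hK, hK2, hK3⟩, k3, k4, k5⟩ := h
  rw [show 1 + 4 * (q - 1) = 4 * q - 3 by ring] at k3
  refine ⟨T, hT, hTA, u, k0, k1, ⟨K, hK, hK2, fun t ht => ⟨(hK3 t ht).1,
    inV_iff.2 (hK3 t ht).2.1, (hK3 t ht).2.2⟩⟩, k3, k4, fun W hW => ?_⟩
  obtain ⟨h1, h2⟩ := k5 hW.sub hW.bd
  exact ⟨fun S hS => (strong_iff hW).2 (h1 S hS),
    fun S w D w' hw => h2 S w D w' ((strong_iff hW).1 hw)⟩

open Pool.Agent.Run7.h407 Pool.Agent.Run7.h407.G.X in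
theorem om_of_not_steady {U : E3 → E3} (h : ¬ IsSteady U) :
    ∃ i x, om i (adv U U) x ≠ 0 := by
  by_contra hcon
  push Not at hcon
  apply h
  intro i j x
  have h1 := wg_le (adv U U) i j x
  simp only [hcon, abs_zero, Finset.sum_const_zero] at h1
  have h2 := abs_nonpos_iff.1 h1
  unfold wg at h2
  exact sub_eq_zero.1 h2

theorem main (q : ℝ) (hq : 1 < q) (hq' : q < 5 / 4) :
    ∃ (P : ℕ → E3 → E3) (G : ℕ → Fin 3 → E3 → E3), IsUniversal q P G ∧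
    ∀ Ω : Set E3, IsOpen Ω → (∃ R, ∀ x ∈ Ω, mag x ≤ R) → ∀ (U : E3 → E3) (z : E3),
      IsTest Ω U → VanishesNear z U → (∃ ρ > 0, cone z ρ ⊆ Ω) →
      (¬ IsSteady U → ∃ k₀ : ℕ, ∀ k ≥ k₀,
        ∃ (p : ℕ → E3 → E3) (g : ℕ → Fin 3 → E3 → E3), IsFamily Ω P G k z U p g ∧
        ∃ A₀ > 0, ∀ ν > 0, ∀ a > 0, A₀ * ν ≤ a → BlowsUp Ω q z p g ν (scale a U) (A₀ / a)) ∧
      (∀ r ε N : ℝ, 0 < r → r < 3 → q ≤ 1 + (3 - r) / 8 → 0 < ε → ∃ k₀ : ℕ, ∀ k ≥ k₀,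
        ∃ F : E3 → E3, IsTest Ω F ∧ InBall z ε F ∧ total (fun x => mag (F x) ^ r) ≤ ε ∧
        ∃ (p : ℕ → E3 → E3) (g : ℕ → Fin 3 → E3 → E3), IsFamily Ω P G k z (plus U F) p g ∧
          ∀ ν, 0 < ν → ν ≤ N → BlowsUp Ω q z p g ν (plus U F) ε) := by
  obtain ⟨X, M⟩ := G.X.exists_mst hq hq'
  have hδ : 0 ≤ 1 + 4 * (q - 1) := by linarith
  have hη : 0 < 2 * (1 + 4 * (q - 1)) - q * (4 * q - 2) := by nlinarith
  refine ⟨_, _, universal_of M.uf, fun Ω hΩ ⟨R, hbd⟩ U z hU hz ⟨ρ₀, hρ, hcone⟩ => ?_⟩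
  have hΩm : MeasurableSet Ω := hΩ.measurableSet
  have hb : Bornology.IsBounded Ω :=
    isBounded_iff_forall_norm_le.2 ⟨R, fun x hx => hbd x hx⟩
  have hz' : ∀ᶠ x in 𝓝 z, U x = 0 := vanishes_iff.1 hz
  set K : Set E3 := tsupport U ∪ {x | x - z ∈ G.X.C980.CC ρ₀} with hK
  have hKc : IsCompact K := hU.1.1.2.isCompact.union (BD.cc_compact z ρ₀)
  have hKΩ : K \ {z} ⊆ Ω := by
    rintro x ⟨hx | hx, hxz⟩
    · exact hU.1.2 hx
    · exact hcone (BD.cc_sub_cone hx hxz)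
  have key : ∀ r, r ≤ ρ₀ → ∀ {p : ℕ → E3 → E3} {g : ℕ → Fin 3 → E3 → E3},
      G.X.C980.Sup (fun x => x ∈ tsupport U ∨ x - z ∈ G.X.C980.CC r) z p g →
      G.X.C980.Sup (fun x => x ∈ K) z p g := by
    intro r hr p g h
    apply h.mono
    rintro x (hx | hx)
    · exact Or.inl hx
    · exact Or.inr (G.X.C980.CC_mono hr hx)
  refine ⟨fun hUs => ?_, fun r ε N hr hr3 hqr hε => ?_⟩
  · obtain ⟨k₀, hk₀⟩ := G.X.DDu.mainAU1 M hq' hδ hη ⟨hU.1.1.1, hU.1.1.2⟩ hU.2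
      (om_of_not_steady hUs) hz' hρ
    refine ⟨k₀, fun k hk => ?_⟩
    obtain ⟨p, g, ρ, hF, hs, hT, A₀, hA, H⟩ := hk₀ k hk
    have hs' := key ρ₀ le_rfl hs
    exact ⟨p, g, family_of (BD.family_of hΩm hKc.isClosed hKΩ hF hs') hT, A₀, hA,
      fun ν hν a ha haν => blowsUp_of
        (BD.blowsUp_of hΩm hb hKc hKΩ hν hF hs' (H ν hν.le a ha haν))⟩
  · have hε' : 0 < min ε ρ₀ := lt_min hε hρ
    obtain ⟨k₀, hk₀⟩ := G.X.DDu.mainB1U M hq' hδ hη ⟨hU.1.1.1, hU.1.1.2⟩ hU.2 hz' (N := N)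
      hr hr3 hqr hε'
    refine ⟨k₀, fun k hk => ?_⟩
    obtain ⟨F, f1, f2, f3, f5, f4, p, g, ρ, hF, hs, hT, H⟩ := hk₀ k hk
    have hs' := key (min ε ρ₀) (min_le_right _ _) hs
    refine ⟨F, ⟨⟨⟨f1.sm, f1.cs⟩, ?_⟩, f2⟩,
      inBall_iff.2 fun x hx => (f3 x hx).2.2.trans (min_le_left _ _),
      f4.trans (min_le_left _ _), p, g,
      family_of (BD.family_of hΩm hKc.isClosed hKΩ hF hs') hT, fun ν hν hνN => ?_⟩
    · refine (BD.tsupp_sub (BD.cc_compact z ρ₀).isClosed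
        (fun x hx => hcone (BD.cc_sub_cone hx.1 hx.2)) (fun x hx => ?_) f5).trans sdiff_subset
      by_contra hcon
      exact hx (G.X.C980.CC_mono (min_le_right _ _) (f3 x hcon))
    · have h := BD.blowsUp_of hΩm hb hKc hKΩ hν hF hs' (H ν hν.le hνN)
      obtain ⟨T, h1, h2, h3⟩ := blowsUp_of h
      exact ⟨T, h1, h2.trans (min_le_left _ _), h3⟩

end Pool.Agent.Run7.h407.DD
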